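import Pool.Agent.TH706.SK.Sim

set_option autoImplicit false
set_option linter.unusedSectionVars false

/-!
# A stack can be simulated with few additional registers in polynomial time

A straight-line program with `K` registers, a stack of unlimited height and `L` instructions is
simulated by one without a stack with `K (n + 1) ^ 2` registers, where `L < 2 ^ n`, and
`(48 K + 16) L ^ 3` instructions. (Compare the theorem of Cook that deterministic context-free
languages are accepted in polynomial time with `O(log ^ 2 n)` space.)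
-/

namespace Pool.Agent.TH706.SK

open Pool.Agent.H564R3.PW (Instr runs exec)

variable {R X ρ : Type}

/-- `(B, i, j, B')` is the context `B; push i; ...; pop j; B'`. -/
abbrev Atom (R X ρ : Type) : Type := Tr R X ρ × ρ × ρ × Tr R X ρ

/-- the number of instructions -/
def wt (a : Atom R X ρ) : ℕ := a.1.size + a.2.2.2.size + 2

/-- the number of instructions -/
def wts (L : List (Atom R X ρ)) : ℕ := (L.map wt).sum

theorem wts_cons (a : Atom R X ρ) (L : List (Atom R X ρ)) : wts (a :: L) = wt a + wts L := by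
  simp [wts]

theorem wts_append (L L' : List (Atom R X ρ)) : wts (L ++ L') = wts L + wts L' := by
  simp [wts]

/-- A program in a context. -/
def ctx : List (Atom R X ρ) → Tr R X ρ → Tr R X ρ
  | [], u => u
  | a :: L, u => a.1.app (.node a.2.1 (ctx L u) a.2.2.1 a.2.2.2)

/-- The instructions on the top level are blocks of size at most `l / 2`. -/
def Light (l : ℕ) : Tr R X ρ → Prop
  | .nil => True
  | .op _ t => Light l t
  | .node _ s _ t => 2 * s.size ≤ l ∧ Light l t

theorem heavy (l : ℕ) (t : Tr R X ρ) (h : ¬ Light l t) : ∃ B i s j B',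
    t = Tr.app B (.node i s j B') ∧ l < 2 * s.size := by
  induction t with
  | nil => exact absurd trivial h
  | op I t ih =>
    obtain ⟨B, i, s, j, B', h1, h2⟩ := ih h
    exact ⟨.op I B, i, s, j, B', by rw [h1]; rfl, h2⟩
  | node i s j t _ ih =>
    by_cases hs : 2 * s.size ≤ l
    · obtain ⟨B, i', s', j', B', h1, h2⟩ := ih (fun h' => h ⟨hs, h'⟩)
      exact ⟨.node i s j B, i', s', j', B', by rw [h1]; rfl, h2⟩
    · exact ⟨.nil, i, s, j, t, rfl, by omega⟩

theorem decomp (l : ℕ) (n : ℕ) : ∀ t : Tr R X ρ, t.size ≤ n → ∃ (L : List (Atom R X ρ))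
    (u : Tr R X ρ), t = ctx L u ∧ Light l u ∧ wts L + u.size = t.size ∧
      (L ≠ [] → l < 2 * u.size) := by
  induction n with
  | zero =>
    intro t ht
    refine ⟨[], t, rfl, ?_, by simp [wts], fun h => absurd rfl h⟩
    cases t with
    | nil => trivial
    | op I t => simp only [Tr.size] at ht; omega
    | node i s j t => simp only [Tr.size] at ht; omega
  | succ n ih =>
    intro t ht
    by_cases hl : Light l t
    · exact ⟨[], t, rfl, hl, by simp [wts], fun h => absurd rfl h⟩
    · obtain ⟨B, i, s, j, B', h1, h2⟩ := heavy l t hl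
      have hsz : t.size = B.size + (2 + s.size + B'.size) := by
        rw [h1, Tr.size_app]; rfl
      obtain ⟨L, u, h3, h4, h5, h6⟩ := ih s (by omega)
      refine ⟨(B, i, j, B') :: L, u, ?_, h4, ?_, fun _ => ?_⟩
      · rw [h1, h3]; rfl
      · rw [wts_cons]
        simp only [wt]
        omega
      · by_cases hL : L = []
        · subst hL
          have : s = u := h3
          rw [← this]
          exact h2
        · exact h6 hL

/-- A point in the middle. -/
theorem middle (L : List (Atom R X ρ)) (hL : L ≠ []) (x : ℕ) (hx : wts L ≤ x) :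
    ∃ L₁ a L₂, L = L₁ ++ a :: L₂ ∧ 2 * wts L₁ ≤ x ∧ 2 * wts L₂ ≤ x := by
  -- the first point at which the weight of the rest is at most `x / 2`
  have key : ∀ (L₂ L₁ : List (Atom R X ρ)), L₁ ++ L₂ = L → 2 * wts L₁ ≤ x → L₂ ≠ [] →
      ∃ L₁ a L₂, L = L₁ ++ a :: L₂ ∧ 2 * wts L₁ ≤ x ∧ 2 * wts L₂ ≤ x := by
    intro L₂
    induction L₂ with
    | nil => intro L₁ _ _ h; exact absurd rfl h
    | cons a L₂ ih =>
      intro L₁ h1 h2 _
      by_cases h3 : 2 * wts (L₁ ++ [a]) ≤ x ∧ L₂ ≠ []
      · exact ih (L₁ ++ [a]) (by rw [List.append_assoc]; exact h1) h3.1 h3.2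
      · refine ⟨L₁, a, L₂, h1.symm, h2, ?_⟩
        by_cases h4 : L₂ = []
        · subst h4
          simp [wts]
        · have h5 : x < 2 * wts (L₁ ++ [a]) := by
            by_contra h6
            exact h3 ⟨by omega, h4⟩
          have h6 : wts L = wts (L₁ ++ [a]) + wts L₂ := by
            rw [← wts_append, List.append_assoc]
            exact congrArg wts h1.symm
          omega
  exact key L [] rfl (by simp [wts]) hL

section

variable [CommSemiring R] [DecidableEq ρ]

/-- The contents of the registers after the first half of a context. -/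
def fwd (w : X → R) : List (Atom R X ρ) → (ρ → R) → ρ → R
  | [], v => v
  | a :: L, v => fwd w L (a.1.sem w v)

/-- The contents of the registers after the second half of a context, if they are `v` at the
beginning of the first half and `u` at the beginning of the second half. -/
def bwd (w : X → R) : List (Atom R X ρ) → (ρ → R) → (ρ → R) → ρ → R
  | [], _, u => u
  | a :: L, v, u => a.2.2.2.sem w
      (Function.update (bwd w L (a.1.sem w v) u) a.2.2.1 (a.1.sem w v a.2.1))

theorem fwd_append (w : X → R) (L L' : List (Atom R X ρ)) (v : ρ → R) :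
    fwd w (L ++ L') v = fwd w L' (fwd w L v) := by
  induction L generalizing v with
  | nil => rfl
  | cons a L ih => exact ih _

theorem bwd_append (w : X → R) (L L' : List (Atom R X ρ)) (v u : ρ → R) :
    bwd w (L ++ L') v u = bwd w L v (bwd w L' (fwd w L v) u) := by
  induction L generalizing v with
  | nil => rfl
  | cons a L ih =>
    show a.2.2.2.sem w (Function.update (bwd w (L ++ L') (a.1.sem w v) u) _ _) = _
    rw [ih]
    rfl

theorem ctx_sem (w : X → R) (L : List (Atom R X ρ)) (t : Tr R X ρ) (v : ρ → R) :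
    (ctx L t).sem w v = bwd w L v (t.sem w (fwd w L v)) := by
  induction L generalizing v with
  | nil => rfl
  | cons a L ih =>
    show (a.1.app (.node a.2.1 (ctx L t) a.2.2.1 a.2.2.2)).sem w v = _
    rw [Tr.sem_app]
    show a.2.2.2.sem w (Function.update ((ctx L t).sem w (a.1.sem w v)) _ _) = _
    rw [ih]
    rfl

/-- The number of steps for a program with light blocks. -/
def cost (A : ℕ) : Tr R X ρ → ℕ
  | .nil => 0
  | .op _ t => 1 + cost A t
  | .node _ s _ t => A * s.size ^ 3 + 4 + cost A t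

theorem cost_le (A l : ℕ) (t : Tr R X ρ) (ht : Light l t) :
    4 * cost A t ≤ (A * l ^ 2 + 16) * t.size := by
  induction t with
  | nil => simp [cost]
  | op I t ih =>
    have := ih ht
    simp only [cost, Tr.size]
    nlinarith [Nat.zero_le (A * l ^ 2)]
  | node i s j t _ ih =>
    have h1 := ih ht.2
    have h2 : (2 * s.size) ^ 2 ≤ l ^ 2 := Nat.pow_le_pow_left ht.1 2
    have h3 : 4 * (A * s.size ^ 3) ≤ A * l ^ 2 * s.size := by
      calc 4 * (A * s.size ^ 3) = A * (2 * s.size) ^ 2 * s.size := by ring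
        _ ≤ A * l ^ 2 * s.size := Nat.mul_le_mul_right _ (Nat.mul_le_mul_left _ h2)
    simp only [cost, Tr.size]
    nlinarith [Nat.zero_le (A * l ^ 2)]

variable [Fintype ρ]

/-- light programs -/
theorem does_light {A l S : ℕ} (hE : ∀ s : Tr R X ρ, 2 * s.size ≤ l →
      Does (fun w v => s.sem w v) (A * s.size ^ 3) S) (t : Tr R X ρ) (ht : Light l t) :
    Does (fun w v => t.sem w v) (cost A t) (S + 1) := by
  induction t with
  | nil => exact does_id.mono le_rfl (Nat.zero_le _)
  | op I t ih =>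
    exact does_comp (f := fun w v => I.run w v) (g := fun w v => t.sem w v)
      ((does_op I).mono le_rfl (Nat.zero_le _)) (ih ht)
  | node i s j t _ ih =>
    exact does_comp (f := fun w v => Function.update (s.sem w v) j (v i))
      (g := fun w v => t.sem w v) (does_node i j (hE s ht.1)) (ih ht.2)

theorem cube_add (a b : ℕ) : a ^ 3 + b ^ 3 ≤ (a + b) ^ 3 := by
  have : (a + b) ^ 3 = a ^ 3 + b ^ 3 + 3 * (a ^ 2 * b + a * b ^ 2) := by ring
  omega

/-- the first half of a context -/
theorem does_fwd {A l S : ℕ} (hE : ∀ s : Tr R X ρ, 2 * s.size ≤ l →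
      Does (fun w v => s.sem w v) (A * s.size ^ 3) S) (L : List (Atom R X ρ))
    (hL : 2 * wts L ≤ l) : Does (fun w v => fwd w L v) (A * wts L ^ 3) S := by
  induction L with
  | nil => exact does_id.mono (Nat.zero_le _) (Nat.zero_le _)
  | cons a L ih =>
    rw [wts_cons] at hL ⊢
    have h1 : a.1.size ≤ wt a := by unfold wt; omega
    refine (does_comp (hE a.1 (by omega)) (ih (by omega))).mono ?_ le_rfl
    calc A * a.1.size ^ 3 + A * wts L ^ 3 = A * (a.1.size ^ 3 + wts L ^ 3) := by ring
      _ ≤ A * (wt a + wts L) ^ 3 := by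
        apply Nat.mul_le_mul_left
        exact (Nat.add_le_add_right (Nat.pow_le_pow_left h1 3) _).trans (cube_add _ _)

/-- the second half of a context -/
theorem does_bwd {A l S : ℕ} (hA : 48 * Fintype.card ρ + 16 ≤ A)
    (hE : ∀ s : Tr R X ρ, 2 * s.size ≤ l →
      Does (fun w v => s.sem w v) (A * s.size ^ 3) S) (m : ℕ) :
    ∀ L : List (Atom R X ρ), 2 * wts L ≤ l → wts L < 2 ^ m →
      DoesC (fun w v u => bwd w L v u) (3 * A * wts L ^ 3) (2 * m + S) := by
  induction m with
  | zero =>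
    intro L _ h2
    rcases L with _ | ⟨a, L⟩
    · exact doesC_nil.mono (Nat.zero_le _) (Nat.zero_le _)
    · rw [wts_cons] at h2
      unfold wt at h2
      omega
  | succ m ih =>
    intro L h1 h2
    by_cases hL : L = []
    · subst hL
      exact doesC_nil.mono (Nat.zero_le _) (Nat.zero_le _)
    obtain ⟨L₁, a, L₂, rfl, h3, h4⟩ := middle L hL _ le_rfl
    have hw : wts (L₁ ++ a :: L₂) = wts L₁ + (wt a + wts L₂) := by
      rw [wts_append, wts_cons]
    obtain ⟨x, hx⟩ : ∃ x, x = wts (L₁ ++ a :: L₂) := ⟨_, rfl⟩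
    rw [← hx] at h1 h2 h3 h4 hw ⊢
    have hwa : wt a = a.1.size + a.2.2.2.size + 2 := rfl
    have p2 : 2 ^ (m + 1) = 2 * 2 ^ m := by ring
    have d1 := ih L₁ (by omega) (by omega)
    have d2 := ih L₂ (by omega) (by omega)
    have da : DoesC (fun (w : X → R) v u => bwd w [a] v u)
        (2 * Fintype.card ρ + A * a.1.size ^ 3 + 2 + A * a.2.2.2.size ^ 3) (S + 1) :=
      doesC_atom a.2.1 a.2.2.1 (hE a.1 (by omega)) (hE a.2.2.2 (by omega))
    have dB := hE a.1 (by omega)
    have daL : DoesC (fun (w : X → R) v u => bwd w (a :: L₂) v u)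
        (2 * Fintype.card ρ + A * a.1.size ^ 3 + 3 * A * wts L₂ ^ 3 +
          (2 * Fintype.card ρ + A * a.1.size ^ 3 + 2 + A * a.2.2.2.size ^ 3))
        (2 * m + S + 1) :=
      doesC_comp (F := fun w v => a.1.sem w v) (g₁ := fun w v u => bwd w [a] v u)
        (g₂ := fun w v u => bwd w L₂ v u) (dB.mono le_rfl (by omega)) d2
        (da.mono le_rfl (by omega))
    have df := does_fwd hE L₁ (by omega)
    have dall := doesC_comp (F := fun w v => fwd w L₁ v) (g₁ := fun w v u => bwd w L₁ v u)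
        (g₂ := fun w v u => bwd w (a :: L₂) v u) (df.mono le_rfl (by omega)) daL
        (d1.mono le_rfl (by omega))
    have hfun : (fun (w : X → R) v u => bwd w (L₁ ++ a :: L₂) v u) =
        fun w v u => bwd w L₁ v (bwd w (a :: L₂) (fwd w L₁ v) u) := by
      funext w v u
      exact bwd_append w L₁ (a :: L₂) v u
    rw [hfun]
    refine dall.mono ?_ (by omega)
    have e1 : 8 * wts L₁ ^ 3 ≤ x ^ 3 := by
      calc 8 * wts L₁ ^ 3 = (2 * wts L₁) ^ 3 := by ring
        _ ≤ x ^ 3 := Nat.pow_le_pow_left h3 3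
    have e2 : 8 * wts L₂ ^ 3 ≤ x ^ 3 := by
      calc 8 * wts L₂ ^ 3 = (2 * wts L₂) ^ 3 := by ring
        _ ≤ x ^ 3 := Nat.pow_le_pow_left h4 3
    have e3 : a.1.size ^ 3 + a.2.2.2.size ^ 3 ≤ x ^ 3 :=
      (cube_add _ _).trans (Nat.pow_le_pow_left (by omega) 3)
    have e4 : 1 ≤ x ^ 3 := Nat.one_le_pow _ _ (by omega)
    obtain ⟨K, hK⟩ : ∃ K, K = Fintype.card ρ := ⟨_, rfl⟩
    rw [← hK] at hA ⊢
    obtain ⟨y, hy⟩ : ∃ y, y = x ^ 3 := ⟨_, rfl⟩
    obtain ⟨y₁, hy₁⟩ : ∃ y, y = wts L₁ ^ 3 := ⟨_, rfl⟩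
    obtain ⟨y₂, hy₂⟩ : ∃ y, y = wts L₂ ^ 3 := ⟨_, rfl⟩
    obtain ⟨z₁, hz₁⟩ : ∃ y, y = a.1.size ^ 3 := ⟨_, rfl⟩
    obtain ⟨z₂, hz₂⟩ : ∃ y, y = a.2.2.2.size ^ 3 := ⟨_, rfl⟩
    rw [← hy, ← hy₁] at e1
    rw [← hy, ← hy₂] at e2
    rw [← hy, ← hz₁, ← hz₂] at e3
    rw [← hy] at e4
    rw [← hy, ← hy₁, ← hy₂, ← hz₁, ← hz₂]
    have f1 : A * (8 * y₁) ≤ A * y := Nat.mul_le_mul_left _ e1
    have f2 : A * (8 * y₂) ≤ A * y := Nat.mul_le_mul_left _ e2
    have f3 : A * (z₁ + z₂) ≤ A * y := Nat.mul_le_mul_left _ e3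
    have f4 : A * 1 ≤ A * y := Nat.mul_le_mul_left _ e4
    have f5 : 8 * (2 * K + A * y₁ + (2 * K + A * z₁ + 3 * A * y₂ +
        (2 * K + A * z₁ + 2 + A * z₂)) + 3 * A * y₁) ≤ 8 * (3 * A * y) := by
      have g1 : 8 * (2 * K + A * y₁ + (2 * K + A * z₁ + 3 * A * y₂ +
        (2 * K + A * z₁ + 2 + A * z₂)) + 3 * A * y₁) = (48 * K + 16) + 4 * (A * (8 * y₁)) +
        3 * (A * (8 * y₂)) + 16 * (A * z₁) + 8 * (A * z₂) := by ring
      have g2 : A * (z₁ + z₂) = A * z₁ + A * z₂ := by ring
      have g3 : 8 * (3 * A * y) = 24 * (A * y) := by ring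
      rw [g1, g3]
      omega
    omega

/-- **Properly nested programs.** -/
theorem does_tr {A : ℕ} (hA : 48 * Fintype.card ρ + 16 ≤ A) (n : ℕ) :
    ∀ t : Tr R X ρ, t.size < 2 ^ n →
      Does (fun w v => t.sem w v) (A * t.size ^ 3) (n * (n + 2)) := by
  induction n with
  | zero =>
    intro t ht
    cases t with
    | nil => exact does_id.mono (Nat.zero_le _) (Nat.zero_le _)
    | op I t => simp only [Tr.size] at ht; omega
    | node i s j t => simp only [Tr.size] at ht; omega
  | succ n ih =>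
    intro t ht
    have p2 : 2 ^ (n + 1) = 2 * 2 ^ n := by ring
    have hE : ∀ s : Tr R X ρ, 2 * s.size ≤ t.size →
        Does (fun w v => s.sem w v) (A * s.size ^ 3) (n * (n + 2)) :=
      fun s hs => ih s (by omega)
    obtain ⟨L, u, h1, h2, h3, h4⟩ := decomp t.size t.size t le_rfl
    have hS : (n + 1) * (n + 1 + 2) = n * (n + 2) + 2 * n + 3 := by ring
    have hu := does_light hE u h2
    have hc := cost_le A t.size u h2
    obtain ⟨l, hl⟩ : ∃ l, l = t.size := ⟨_, rfl⟩
    rw [← hl] at h3 h4 hc ht hE ⊢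
    have hul : u.size ≤ l := by omega
    have hc2 : 4 * cost A u ≤ A * l ^ 3 + 16 * l := by
      calc 4 * cost A u ≤ (A * l ^ 2 + 16) * u.size := hc
        _ ≤ (A * l ^ 2 + 16) * l := Nat.mul_le_mul_left _ hul
        _ = A * l ^ 3 + 16 * l := by ring
    by_cases hL : L = []
    · subst hL
      have : t = u := h1
      subst this
      refine hu.mono ?_ (by omega)
      have h5 : l ≤ l ^ 3 := Nat.le_self_pow (by norm_num) l
      have h6 : 16 * l ≤ A * l ^ 3 := Nat.mul_le_mul (by omega) h5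
      omega
    · have h5 := h4 hL
      have hx : 2 * wts L ≤ l := by omega
      have hfun : (fun (w : X → R) v => t.sem w v) =
          fun w v => bwd w L v (u.sem w (fwd w L v)) := by
        funext w v
        rw [h1, ctx_sem]
      rw [hfun]
      have hf := does_fwd hE L hx
      have hb := does_bwd hA hE n L hx (by omega)
      refine (does_ctx (S := n * (n + 2) + 2 * n + 1) (F := fun w v => fwd w L v)
        (f := fun w v => u.sem w v) (g := fun w v u => bwd w L v u)
        (hf.mono le_rfl (by omega)) (hu.mono le_rfl (by omega))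
        (hb.mono le_rfl (by omega))).mono ?_ (by omega)
      have hl1 : 1 ≤ l := by
        rcases L with _ | ⟨a, L⟩
        · exact absurd rfl hL
        · rw [wts_cons] at hx
          unfold wt at hx
          omega
      have e1 : 8 * wts L ^ 3 ≤ l ^ 3 := by
        calc 8 * wts L ^ 3 = (2 * wts L) ^ 3 := by ring
          _ ≤ l ^ 3 := Nat.pow_le_pow_left hx 3
      have e2 : l ≤ l ^ 3 := Nat.le_self_pow (by norm_num) l
      obtain ⟨K, hK⟩ : ∃ K, K = Fintype.card ρ := ⟨_, rfl⟩
      rw [← hK] at hA ⊢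
      obtain ⟨y, hy⟩ : ∃ y, y = l ^ 3 := ⟨_, rfl⟩
      obtain ⟨z, hz⟩ : ∃ y, y = wts L ^ 3 := ⟨_, rfl⟩
      rw [← hy] at e1 e2 hc2
      rw [← hz] at e1
      rw [← hy, ← hz]
      have f1 : A * (8 * z) ≤ A * y := Nat.mul_le_mul_left _ e1
      have f2 : (48 * K + 16) * y ≤ A * y := Nat.mul_le_mul_right _ hA
      have f3 : 48 * K + 16 * l ≤ (48 * K + 16) * y := by
        have : 48 * K * 1 ≤ 48 * K * y := Nat.mul_le_mul_left _ (by omega)
        calc 48 * K + 16 * l ≤ 48 * K * y + 16 * y := by omega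
          _ = (48 * K + 16) * y := by ring
      have f4 : 8 * (2 * K + A * z + cost A u + 3 * A * z) =
        16 * K + 4 * (A * (8 * z)) + 2 * (4 * cost A u) := by ring
      have f5 : 8 * (2 * K + A * z + cost A u + 3 * A * z) ≤ 8 * (A * y) := by
        rw [f4]
        omega
      omega

/-- **Simulation of a stack.** -/
theorem simulate (p : List (SInstr R X ρ)) (n : ℕ) (hn : p.length < 2 ^ n) :
    ∃ q : List (Instr R X (ρ × Fin ((n + 1) ^ 2))),
      q.length ≤ (48 * Fintype.card ρ + 16) * p.length ^ 3 ∧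
      ∃ z : Fin ((n + 1) ^ 2), ∀ w i, exec w q (i, z) = sexec w p i := by
  obtain ⟨t, h1, h2⟩ := nested _ p le_rfl
  obtain ⟨q, h3, h4, h5⟩ := does_tr (R := R) (X := X) (ρ := ρ) (A := 48 * Fintype.card ρ + 16)
    le_rfl n t (by omega) 0 1 (by norm_num)
  have hN : (n + 1) ^ 2 = 1 + n * (n + 2) := by ring
  have hpos : 0 < (n + 1) ^ 2 := by positivity
  let g : ρ × ℕ → ρ × Fin ((n + 1) ^ 2) := fun s =>
    (s.1, if h : s.2 < (n + 1) ^ 2 then ⟨s.2, h⟩ else ⟨0, hpos⟩)
  have hP : ∀ s : ρ × ℕ, B1 0 1 (n * (n + 2)) s → s.2 < (n + 1) ^ 2 := by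
    rintro s (h | h)
    · rw [h]; exact hpos
    · omega
  refine ⟨q.map (mapI g), ?_, ⟨0, hpos⟩, ?_⟩
  · rw [List.length_map]
    exact h3.trans (Nat.mul_le_mul_left _ (Nat.pow_le_pow_left h1 3))
  · intro w i
    have h6 := runs_map g (P := B1 0 1 (n * (n + 2))) (by
      intro s s' hs hs' hss
      have e1 : (g s).1 = (g s').1 := congrArg Prod.fst hss
      have e2 : (g s).2 = (g s').2 := congrArg Prod.snd hss
      simp only [g] at e2
      rw [dif_pos (hP s hs), dif_pos (hP s' hs')] at e2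
      exact Prod.ext e1 (congrArg Fin.val e2)) q h4 w (fun _ => 0) (fun _ => 0)
      (fun _ _ => rfl) (i, 0) (Or.inl rfl)
    have h7 : g (i, 0) = (i, ⟨0, hpos⟩) := by
      simp only [g]
      rw [dif_pos hpos]
    rw [h7] at h6
    show runs w (q.map (mapI g)) (fun _ => 0) (i, ⟨0, hpos⟩) = _
    rw [h6]
    have h8 := congrFun (h5 w (fun _ => 0)) i
    show bank (runs w q fun _ => 0) 0 i = _
    rw [h8]
    unfold sexec
    rw [h2]
    rfl

end

end Pool.Agent.TH706.SK
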