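import Pool.Agent.TH679.PL.Asym

set_option autoImplicit false

/-!
# The asymptotic form of the simulation of a stack
-/

namespace Pool.Agent.TH706.SK

open Filter Asymptotics
open Pool.Agent.TH679.PL (clog_le_logb)

/-- The number `⌈log₂ (L + 1)⌉`. -/
theorem clog_succ_le {L : ℕ} {B : ℝ} (hB : 0 ≤ B) (hL : (L : ℝ) ≤ 2 ^ B) :
    (Nat.clog 2 (L + 1) : ℝ) ≤ B + 2 := by
  rcases Nat.eq_zero_or_pos L with h | h
  · subst h
    simp
    linarith
  · have h1 := clog_le_logb (L := L + 1) (by omega)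
    have h2 : Real.logb 2 ((L + 1 : ℕ) : ℝ) ≤ B + 1 := by
      rw [Real.logb_le_iff_le_rpow (by norm_num) (by positivity), Real.rpow_add (by norm_num),
        Real.rpow_one]
      have h3 : (1 : ℝ) ≤ L := by exact_mod_cast h
      push_cast
      linarith
    linarith

theorem exists_large (δ b : ℝ) (hδ : 0 < δ) (hb : 0 < b) : ∃ y₀ : ℝ, 1 ≤ y₀ ∧ ∀ y : ℝ, y₀ ≤ y →
    (b * y ^ 2 + 3) ^ 2 ≤ (2 : ℝ) ^ (δ * y) ∧ 6 + y < 5 * b * y ^ 2 := by
  have hb' : 0 < δ * Real.log 2 := mul_pos hδ (Real.log_pos (by norm_num))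
  have h1 : (fun x : ℝ => (b + 3) ^ 2 * x ^ 4) =o[atTop]
      fun x => Real.exp (δ * Real.log 2 * x) :=
    (isLittleO_pow_exp_pos_mul_atTop 4 hb').const_mul_left _
  have h2 := h1.bound (c := 1) one_pos
  obtain ⟨l₁, h3⟩ := eventually_atTop.1 h2
  refine ⟨max l₁ (max 1 (7 / b)), (le_max_left _ _).trans (le_max_right _ _),
    fun y hy => ⟨?_, ?_⟩⟩
  · have hy1 : 1 ≤ y := (le_max_left _ _).trans ((le_max_right _ _).trans hy)
    have h4 := h3 y ((le_max_left _ _).trans hy)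
    rw [one_mul, Real.norm_eq_abs, Real.norm_eq_abs, abs_of_pos (Real.exp_pos _)] at h4
    have h5 := (le_abs_self _).trans h4
    have h6 : (2 : ℝ) ^ (δ * y) = Real.exp (δ * Real.log 2 * y) := by
      rw [Real.rpow_def_of_pos (by norm_num)]
      congr 1
      ring
    rw [h6]
    refine le_trans ?_ h5
    have h7 : b * y ^ 2 + 3 ≤ (b + 3) * y ^ 2 := by nlinarith
    calc (b * y ^ 2 + 3) ^ 2 ≤ ((b + 3) * y ^ 2) ^ 2 :=
          pow_le_pow_left₀ (by positivity) h7 2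
      _ = (b + 3) ^ 2 * y ^ 4 := by ring
  · have hy1 : 1 ≤ y := (le_max_left _ _).trans ((le_max_right _ _).trans hy)
    have hy2 : 7 / b ≤ y := (le_max_right _ _).trans ((le_max_right _ _).trans hy)
    rw [div_le_iff₀ hb] at hy2
    nlinarith

theorem cube_aux (K L : ℕ) (hK : 1 ≤ K) :
    (((48 * K + 16) * L ^ 3 : ℕ) : ℝ) ≤ 64 * K * (L : ℝ) ^ 3 := by
  have h1 : (48 * K + 16) * L ^ 3 ≤ 64 * K * L ^ 3 := Nat.mul_le_mul_right _ (by omega)
  exact_mod_cast h1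

/-- Programs with few steps: superpolynomial bounds. -/
theorem transfer {δ c : ℝ} (hδ : 0 < δ) (hc : 0 < c) : ∃ y₀ : ℝ, ∀ N : ℝ, 0 < N →
    y₀ ≤ Real.logb 2 N → ∀ K L : ℕ, 1 ≤ K → (K : ℝ) ≤ N →
      (L : ℝ) < N ^ (c / 8 * Real.logb 2 N) →
      (((Nat.clog 2 (L + 1) + 1) ^ 2 : ℕ) : ℝ) ≤ N ^ δ ∧
      (((48 * K + 16) * L ^ 3 : ℕ) : ℝ) < N ^ (c * Real.logb 2 N) := by
  obtain ⟨y₀, h0, hy₀⟩ := exists_large δ (c / 8) hδ (by positivity)
  refine ⟨y₀, fun N hN hy K L hK hKN hL => ?_⟩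
  obtain ⟨y, hyd⟩ : ∃ y, y = Real.logb 2 N := ⟨_, rfl⟩
  rw [← hyd] at hy hL ⊢
  have hN2 : N = 2 ^ y := by
    rw [hyd]
    exact (Real.rpow_logb (by norm_num) (by norm_num) hN).symm
  obtain ⟨g1, g2⟩ := hy₀ y hy
  have hy1 : 1 ≤ y := h0.trans hy
  have e1 : N ^ (c / 8 * y) = 2 ^ (c / 8 * y ^ 2) := by
    rw [hN2, ← Real.rpow_mul (by norm_num)]
    congr 1
    ring
  rw [e1] at hL
  constructor
  · have h1 := clog_succ_le (B := c / 8 * y ^ 2) (by positivity) hL.le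
    have h2 : ((Nat.clog 2 (L + 1) : ℝ) + 1) ^ 2 ≤ (c / 8 * y ^ 2 + 3) ^ 2 :=
      pow_le_pow_left₀ (by positivity) (by linarith) 2
    push_cast
    refine h2.trans (g1.trans (le_of_eq ?_))
    rw [hN2, ← Real.rpow_mul (by norm_num)]
    congr 1
    ring
  · refine lt_of_le_of_lt (cube_aux K L hK) ?_
    have e2 : N ^ (c * y) = 2 ^ (c * y ^ 2) := by
      rw [hN2, ← Real.rpow_mul (by norm_num)]
      congr 1
      ring
    rw [e2]
    have h3 : (L : ℝ) ^ 3 ≤ (2 ^ (c / 8 * y ^ 2)) ^ 3 :=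
      pow_le_pow_left₀ (by positivity) hL.le 3
    have h4 : ((2 : ℝ) ^ (c / 8 * y ^ 2)) ^ 3 = 2 ^ (3 * (c / 8) * y ^ 2) := by
      rw [← Real.rpow_natCast, ← Real.rpow_mul (by norm_num)]
      congr 1
      push_cast
      ring
    rw [h4] at h3
    calc 64 * (K : ℝ) * (L : ℝ) ^ 3 ≤ 64 * 2 ^ y * 2 ^ (3 * (c / 8) * y ^ 2) := by
          rw [← hN2]
          gcongr
      _ = 2 ^ (6 + y + 3 * (c / 8) * y ^ 2) := by
          rw [Real.rpow_add (by norm_num), Real.rpow_add (by norm_num)]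
          congr 2
          norm_num
      _ < 2 ^ (c * y ^ 2) := by
          apply Real.rpow_lt_rpow_of_exponent_lt (by norm_num)
          linarith

theorem le_two_rpow {x : ℝ} (hx : 0 ≤ x) : x ≤ 2 ^ x := by
  have h1 : x ≤ 2 ^ (⌊x⌋₊ : ℝ) := by
    have h2 := Nat.lt_floor_add_one x
    have h3 : (⌊x⌋₊ : ℝ) + 1 ≤ 2 ^ ⌊x⌋₊ := by
      have : ⌊x⌋₊ + 1 ≤ 2 ^ ⌊x⌋₊ := Nat.lt_two_pow_self
      exact_mod_cast this
    rw [Real.rpow_natCast]
    linarith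
  exact h1.trans (Real.rpow_le_rpow_of_exponent_le (by norm_num) (Nat.floor_le hx))

/-- Programs with polynomially many steps. -/
theorem transfer_poly {a : ℝ} (ha : 1 ≤ a) (N : ℝ) (hN : 2 ≤ N) (K L : ℕ) (hK : 1 ≤ K)
    (hKN : (K : ℝ) ≤ N) (hL : (L : ℝ) ≤ N ^ a) :
    (((Nat.clog 2 (L + 1) + 1) ^ 2 : ℕ) : ℝ) ≤
      2 ^ ((2 * Real.logb 2 (a + 3) + 4) * Real.sqrt (Real.logb 2 N)) ∧
    (((48 * K + 16) * L ^ 3 : ℕ) : ℝ) ≤ N ^ (3 * a + 7) := by
  obtain ⟨y, hyd⟩ : ∃ y, y = Real.logb 2 N := ⟨_, rfl⟩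
  rw [← hyd]
  have hN0 : (0 : ℝ) < N := by linarith
  have hN2 : N = 2 ^ y := by
    rw [hyd]
    exact (Real.rpow_logb (by norm_num) (by norm_num) hN0).symm
  have hy1 : 1 ≤ y := by
    rw [hyd, Real.le_logb_iff_rpow_le (by norm_num) hN0, Real.rpow_one]
    exact hN
  constructor
  · have e1 : N ^ a = 2 ^ (a * y) := by
      rw [hN2, ← Real.rpow_mul (by norm_num)]
      congr 1
      ring
    rw [e1] at hL
    have h1 := clog_succ_le (B := a * y) (by positivity) hL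
    have h2 : (Nat.clog 2 (L + 1) : ℝ) + 1 ≤ (a + 3) * y := by nlinarith
    obtain ⟨s, hs⟩ : ∃ s, s = Real.sqrt y := ⟨_, rfl⟩
    have hs2 : s ^ 2 = y := by rw [hs]; exact Real.sq_sqrt (by linarith)
    have hs1 : 1 ≤ s := by
      rw [hs]
      exact Real.le_sqrt_of_sq_le (by linarith)
    have h3 : y ^ 2 ≤ 2 ^ (4 * s) := by
      have h4 : s ^ 4 ≤ ((2 : ℝ) ^ s) ^ 4 := pow_le_pow_left₀ (by linarith)
        (le_two_rpow (by linarith)) 4
      have h5 : ((2 : ℝ) ^ s) ^ 4 = 2 ^ (4 * s) := by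
        rw [← Real.rpow_natCast, ← Real.rpow_mul (by norm_num)]
        congr 1
        push_cast
        ring
      rw [h5] at h4
      calc y ^ 2 = s ^ 4 := by rw [← hs2]; ring
        _ ≤ _ := h4
    have h6 : (a + 3) ^ 2 ≤ 2 ^ (2 * Real.logb 2 (a + 3) * s) := by
      have h7 : (a + 3) = (2 : ℝ) ^ (Real.logb 2 (a + 3)) :=
        (Real.rpow_logb (by norm_num) (by norm_num) (by linarith)).symm
      have h8 : 0 ≤ Real.logb 2 (a + 3) := Real.logb_nonneg (by norm_num) (by linarith)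
      have h9 : (a + 3) ^ 2 = (2 : ℝ) ^ (2 * Real.logb 2 (a + 3)) := by
        conv_lhs => rw [h7]
        rw [← Real.rpow_natCast, ← Real.rpow_mul (by norm_num)]
        congr 1
        push_cast
        ring
      rw [h9]
      apply Real.rpow_le_rpow_of_exponent_le (by norm_num)
      nlinarith
    rw [← hs]
    push_cast
    calc ((Nat.clog 2 (L + 1) : ℝ) + 1) ^ 2 ≤ ((a + 3) * y) ^ 2 :=
          pow_le_pow_left₀ (by positivity) h2 2
      _ = (a + 3) ^ 2 * y ^ 2 := by ring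
      _ ≤ 2 ^ (2 * Real.logb 2 (a + 3) * s) * 2 ^ (4 * s) := by gcongr
      _ = 2 ^ ((2 * Real.logb 2 (a + 3) + 4) * s) := by
          rw [← Real.rpow_add (by norm_num)]
          congr 1
          ring
  · refine (cube_aux K L hK).trans ?_
    have h3 : (L : ℝ) ^ 3 ≤ (N ^ a) ^ 3 := pow_le_pow_left₀ (by positivity) hL 3
    have h4 : (N ^ a) ^ 3 = N ^ (3 * a) := by
      rw [← Real.rpow_natCast, ← Real.rpow_mul hN0.le]
      congr 1
      push_cast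
      ring
    rw [h4] at h3
    have h5 : (64 : ℝ) ≤ N ^ (6 : ℝ) := by
      calc (64 : ℝ) = 2 ^ (6 : ℝ) := by norm_num
        _ ≤ N ^ (6 : ℝ) := Real.rpow_le_rpow (by norm_num) hN (by norm_num)
    calc 64 * (K : ℝ) * (L : ℝ) ^ 3 ≤ N ^ (6 : ℝ) * N * N ^ (3 * a) := by gcongr
      _ = N ^ (3 * a + 7) := by
          rw [← Real.rpow_add_one hN0.ne', ← Real.rpow_add hN0]
          congr 1
          ring

end Pool.Agent.TH706.SK
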