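import Pool.Agent.TH706.SK.Main
import Pool.Agent.TH706.SK.Asym
import Pool.Agent.TH679.DB.Main
import Pool.Agent.TH679.DB.Upper
import Pool.Agent.TH679.DB.Asym

set_option autoImplicit false

/-!
# Shortest paths in graphs of degree two with registers and a stack
-/

namespace Pool.Agent.TH706.SK

open Filter
open Pool.Agent.TH679.DB
open Pool.Agent.TH679.PL (kap)
open Pool.Agent.H564R3.PW (Instr exec)
open scoped NNReal

section Solves

variable {W : Type} [Fintype W] [DecidableEq W] {T : ℕ} {ok : W → W → Prop} [DecidableRel ok]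

/-- The (min,+) program `p` with a stack, whose constants are real numbers or infinity, writes into
register `o` the length of a shortest path from the first to the last column, for all weights in the
natural numbers. -/
def StackMin {ρ : Type} [DecidableEq ρ]
    (p : List (SInstr (Tropical (WithTop ℝ)) (Edge T ok) ρ)) (o : ρ) : Prop :=
  ∀ w : Edge T ok → ℕ,
    sexec (fun x => Tropical.trop (((w x : ℕ) : ℝ) : WithTop ℝ)) p o =
      pathSum (fun x => Tropical.trop (((w x : ℕ) : ℝ) : WithTop ℝ))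

/-- The program `p` with a stack over the nonnegative reals computes the sum over all paths from the
first to the last column of the products of the weights. -/
def StackSum {ρ : Type} [DecidableEq ρ]
    (p : List (SInstr ℝ≥0 (Edge T ok) ρ)) (o : ρ) : Prop :=
  ∀ w : Edge T ok → ℝ≥0, sexec w p o = pathSum w

end Solves

/-- What is known about a program with `K` registers, a stack and `L` instructions. -/
theorem lawBoth {T d m n : ℕ} (hn : 1 ≤ n) (hm : 1 ≤ m) (hd : 1 ≤ d) (hT : d * n ≤ T)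
    {ρ : Type} [Fintype ρ] [DecidableEq ρ] (o : ρ) (L : ℕ)
    (h : (∃ p : List (SInstr (Tropical (WithTop ℝ)) (Edge T (Shift (m := m) (d := d))) ρ),
        StackMin p o ∧ p.length = L) ∨
      ∃ p : List (SInstr ℝ≥0 (Edge T (Shift (m := m) (d := d))) ρ),
        StackSum p o ∧ p.length = L) :
    ∃ L' : ℕ, 1 ≤ L' ∧ L' ≤ (48 * Fintype.card ρ + 16) * L ^ 3 ∧
      (m ^ d) ^ kap n ≤ 2 * L' * ((Nat.clog 2 L' + 1) *
        (Fintype.card ρ * (Nat.clog 2 (L + 1) + 1) ^ 2)) ^ kap n := by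
  have hL : L < 2 ^ Nat.clog 2 (L + 1) := by
    have := Nat.le_pow_clog (b := 2) (by norm_num) (L + 1)
    omega
  have hcard : Fintype.card (ρ × Fin ((Nat.clog 2 (L + 1) + 1) ^ 2)) =
      Fintype.card ρ * (Nat.clog 2 (L + 1) + 1) ^ 2 := by
    rw [Fintype.card_prod, Fintype.card_fin]
  rcases h with ⟨p, hp, rfl⟩ | ⟨p, hp, rfl⟩
  · obtain ⟨q, h1, z, h2⟩ := simulate p _ hL
    obtain ⟨h3, h4⟩ := lawMin hn hm hd hT q (o, z) (fun w => by rw [h2]; exact hp w)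
    rw [hcard] at h4
    exact ⟨q.length, h3, h1, h4⟩
  · obtain ⟨q, h1, z, h2⟩ := simulate p _ hL
    obtain ⟨h3, h4⟩ := lawSum hn hm hd hT q (o, z) (fun w => by rw [h2]; exact hp w)
    rw [hcard] at h4
    exact ⟨q.length, h3, h1, h4⟩

/-- the law in the explicit form -/
theorem law_explicit {T d m n : ℕ} (hn : 1 ≤ n) (hm : 1 ≤ m) (hd : 1 ≤ d) (hT : d * n ≤ T)
    {ρ : Type} [Fintype ρ] [DecidableEq ρ] (o : ρ) (L : ℕ)
    (h : (∃ p : List (SInstr (Tropical (WithTop ℝ)) (Edge T (Shift (m := m) (d := d))) ρ),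
        StackMin p o ∧ p.length = L) ∨
      ∃ p : List (SInstr ℝ≥0 (Edge T (Shift (m := m) (d := d))) ρ),
        StackSum p o ∧ p.length = L) (L' K' : ℕ)
    (hL' : L' = (48 * Fintype.card ρ + 16) * L ^ 3)
    (hK' : K' = Fintype.card ρ * (Nat.clog 2 (L + 1) + 1) ^ 2) :
    (m ^ d) ^ (Nat.clog 4 (n + 3) - 1) ≤
      2 * L' * ((Nat.clog 2 L' + 1) * K') ^ (Nat.clog 4 (n + 3) - 1) := by
  obtain ⟨L₁, h1, h2, h3⟩ := lawBoth hn hm hd hT o L h
  rw [← hL'] at h2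
  rw [← hK'] at h3
  refine h3.trans ?_
  have h4 : Nat.clog 2 L₁ ≤ Nat.clog 2 L' := Nat.clog_mono_right 2 h2
  exact Nat.mul_le_mul (Nat.mul_le_mul_left _ h2)
    (Nat.pow_le_pow_left (Nat.mul_le_mul_right _ (by omega)) _)

theorem card_word (m d : ℕ) : Fintype.card (Word m d) = m ^ d := by
  show Fintype.card (Fin d → Fin m) = m ^ d
  rw [Fintype.card_fun, Fintype.card_fin, Fintype.card_fin]

theorem inE_le {m d T : ℕ} (hd : 1 ≤ d) (k : Fin T) (v : Word m d) :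
    (inE (ok := Shift (m := m) (d := d)) k v).card ≤ m := by
  have h := Finset.card_le_card_of_injOn
    (s := inE (ok := Shift (m := m) (d := d)) k v)
    (t := (Finset.univ : Finset (Fin m))) (fun e => e.1.2.1 ⟨0, by omega⟩)
    (fun _ _ => Finset.mem_univ _) (by
      intro e he e' he' h
      obtain ⟨_, h2, h3⟩ := Finset.mem_filter.1 he
      obtain ⟨_, h2', h3'⟩ := Finset.mem_filter.1 he'
      have s1 : Shift e.1.2.1 v := by
        have := e.2
        rwa [h3] at this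
      have s2 : Shift e'.1.2.1 v := by
        have := e'.2
        rwa [h3'] at this
      have hu : e.1.2.1 = e'.1.2.1 := by
        funext i
        by_cases hi : i.val = 0
        · have h4 : i = ⟨0, by omega⟩ := Fin.ext hi
          rw [h4]
          exact h
        · have h4 := s1 ⟨i.val - 1, by omega⟩ i (by show i.val = i.val - 1 + 1; omega)
          have h5 := s2 ⟨i.val - 1, by omega⟩ i (by show i.val = i.val - 1 + 1; omega)
          rw [← h4, ← h5]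
      apply Subtype.ext
      exact Prod.ext (h2.trans h2'.symm) (Prod.ext hu (h3.trans h3'.symm)))
  rwa [Finset.card_univ, Fintype.card_fin] at h

theorem hup (R : Type) [CommSemiring R] (T m d : ℕ) (hd : 1 ≤ d) :
    ∃ p : List (Instr R (Edge T (Shift (m := m) (d := d))) (Option (Bool × Word m d))),
      p.length ≤ (3 * m + 1) * (T * m ^ d) + 2 * m ^ d + 1 ∧
      ∀ w : Edge T (Shift (m := m) (d := d)) → R, exec w p none = pathSum w := by
  have h := upper R T (Shift (m := m) (d := d)) (inE_le hd)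
  rwa [card_word] at h

theorem hlen (T d : ℕ) : (3 * 2 + 1) * (T * 2 ^ d) + 2 * 2 ^ d + 1 ≤ 7 * ((T + 1) * 2 ^ d) := by
  have h1 : 1 ≤ 2 ^ d := Nat.one_le_two_pow
  have h2 : 7 * ((T + 1) * 2 ^ d) = (3 * 2 + 1) * (T * 2 ^ d) + 7 * 2 ^ d := by ring
  rw [h2]
  omega

theorem hcard (T d : ℕ) : Fintype.card (Fin (T + 1) × Word 2 d) = (T + 1) * 2 ^ d := by
  rw [Fintype.card_prod, Fintype.card_fin, card_word]

theorem hreg (d : ℕ) : Fintype.card (Option (Bool × Word 2 d)) = 2 * 2 ^ d + 1 := by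
  rw [Fintype.card_option, Fintype.card_prod, Fintype.card_bool, card_word]

/-- Superpolynomial time. -/
theorem part_time (ε : ℝ) (hε : 0 < ε) (hε1 : ε ≤ 1) : ∃ c : ℝ, 0 < c ∧ ∀ᶠ d : ℕ in atTop,
    ∀ T N : ℕ, T = d * ⌈(2 : ℝ) ^ (ε / 4 * d)⌉₊ → N = Fintype.card (Fin (T + 1) × Word 2 d) →
      (∀ (ρ : Type) [Fintype ρ] [DecidableEq ρ] (o : ρ),
        (Fintype.card ρ : ℝ) ≤ (N : ℝ) ^ (1 - ε) →
        (∀ p : List (SInstr (Tropical (WithTop ℝ)) (Edge T (Shift (m := 2) (d := d))) ρ),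
          StackMin p o → (N : ℝ) ^ (c * Real.logb 2 N) ≤ p.length) ∧
        (∀ p : List (SInstr ℝ≥0 (Edge T (Shift (m := 2) (d := d))) ρ),
          StackSum p o → (N : ℝ) ^ (c * Real.logb 2 N) ≤ p.length)) ∧
      (∀ (R : Type) [CommSemiring R],
        ∃ (ρ : Type) (_ : Fintype ρ) (_ : DecidableEq ρ) (o : ρ)
          (p : List (Instr R (Edge T (Shift (m := 2) (d := d))) ρ)),
          (Fintype.card ρ : ℝ) ≤ (N : ℝ) ^ (1 - ε / 8) ∧
          p.length ≤ 7 * N ∧ ∀ w : Edge T (Shift (m := 2) (d := d)) → R,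
            exec w p o = pathSum w) := by
  have hε' : 0 < ε / 2 := by positivity
  obtain ⟨d₀, hd₀⟩ := Pool.Agent.TH679.DB.exists_large (ε / 2) hε'
  obtain ⟨y₀, hy₀⟩ := transfer (δ := ε / 2) (c := (ε / 2) ^ 2 / 576) hε' (by positivity)
  refine ⟨(ε / 2) ^ 2 / 576 / 8, by positivity, ?_⟩
  have hlarge : ∀ᶠ d : ℕ in atTop, max d₀ y₀ ≤ (d : ℝ) :=
    tendsto_natCast_atTop_atTop.eventually_ge_atTop _
  filter_upwards [hlarge, eventually_ge_atTop 1] with d hd hd1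
  intro T N hT hN
  obtain ⟨n, hn⟩ : ∃ n, n = ⌈(2 : ℝ) ^ (ε / 2 / 2 * d)⌉₊ := ⟨_, rfl⟩
  have hnn : ε / 4 = ε / 2 / 2 := by ring
  rw [hnn, ← hn] at hT
  have hn1 : 1 ≤ n := by
    rw [hn, Nat.one_le_ceil_iff]
    positivity
  rw [hcard] at hN
  obtain ⟨s1, s2⟩ := steps_ge hε' (by linarith) hd₀ ((le_max_left _ _).trans hd) hn (N := N)
    (by rw [hN, hT])
  have hNd : 2 ^ d ≤ N := by
    rw [hN]
    exact Nat.le_mul_of_pos_left _ (by omega)
  have hNd' : (2 : ℝ) ^ (d : ℝ) ≤ N := by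
    rw [Real.rpow_natCast]
    exact_mod_cast hNd
  have hN0 : (0 : ℝ) < N := lt_of_lt_of_le (by positivity) hNd'
  have hN1 : (1 : ℝ) ≤ N := (Real.one_le_rpow (by norm_num) (Nat.cast_nonneg d)).trans hNd'
  have hlogN : y₀ ≤ Real.logb 2 N := by
    refine ((le_max_right _ _).trans hd).trans ?_
    rwa [Real.le_logb_iff_rpow_le (by norm_num) hN0]
  have hmain : ∀ (ρ : Type) [Fintype ρ] [DecidableEq ρ] (o : ρ) (L : ℕ),
      (Fintype.card ρ : ℝ) ≤ (N : ℝ) ^ (1 - ε) →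
      ((∃ p : List (SInstr (Tropical (WithTop ℝ)) (Edge T (Shift (m := 2) (d := d))) ρ),
        StackMin p o ∧ p.length = L) ∨
      ∃ p : List (SInstr ℝ≥0 (Edge T (Shift (m := 2) (d := d))) ρ),
        StackSum p o ∧ p.length = L) →
      (N : ℝ) ^ ((ε / 2) ^ 2 / 576 / 8 * Real.logb 2 N) ≤ L := by
    intro ρ _ _ o L hK h
    by_contra hcon
    push Not at hcon
    have hK1 : 1 ≤ Fintype.card ρ := Fintype.card_pos_iff.2 ⟨o⟩
    have hKN : (Fintype.card ρ : ℝ) ≤ N := by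
      refine hK.trans ?_
      calc (N : ℝ) ^ (1 - ε) ≤ (N : ℝ) ^ (1 : ℝ) :=
            Real.rpow_le_rpow_of_exponent_le hN1 (by linarith)
        _ = N := Real.rpow_one _
    obtain ⟨t1, t2⟩ := hy₀ N hN0 hlogN _ L hK1 hKN hcon
    obtain ⟨L', h1, h2, h3⟩ := lawBoth hn1 (by norm_num) hd1 hT.ge o L h
    have h4 := s1 _ _ h1 (by
      push_cast at t1 ⊢
      calc (Fintype.card ρ : ℝ) * ((Nat.clog 2 (L + 1) : ℝ) + 1) ^ 2 ≤
          (N : ℝ) ^ (1 - ε) * (N : ℝ) ^ (ε / 2) := by gcongr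
        _ = (N : ℝ) ^ (1 - ε / 2) := by
          rw [← Real.rpow_add hN0]
          congr 1
          ring) h3
    have h5 : (L' : ℝ) ≤ (((48 * Fintype.card ρ + 16) * L ^ 3 : ℕ) : ℝ) := by exact_mod_cast h2
    linarith
  refine ⟨?_, ?_⟩
  · intro ρ _ _ o hK
    exact ⟨fun p h => hmain ρ o _ hK (Or.inl ⟨p, h, rfl⟩),
      fun p h => hmain ρ o _ hK (Or.inr ⟨p, h, rfl⟩)⟩
  · intro R _
    obtain ⟨p, h1, h2⟩ := hup R T 2 d hd1
    refine ⟨Option (Bool × Word 2 d), inferInstance, inferInstance, none, p, ?_, ?_, h2⟩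
    · rw [hreg]
      push_cast
      have h3 : 1 - ε / 8 = 1 - ε / 2 / 4 := by ring
      rw [h3]
      exact s2
    · rw [hN]
      exact h1.trans (hlen T d)

/-- Polynomial time. -/
theorem part_space (a : ℝ) : ∃ C : ℝ, ∀ᶠ d : ℕ in atTop, ∀ T N : ℕ,
      T = d * 2 ^ ⌈Real.sqrt d⌉₊ → N = Fintype.card (Fin (T + 1) × Word 2 d) →
      (∀ (ρ : Type) [Fintype ρ] [DecidableEq ρ] (o : ρ),
        (∀ p : List (SInstr (Tropical (WithTop ℝ)) (Edge T (Shift (m := 2) (d := d))) ρ),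
          StackMin p o → (p.length : ℝ) ≤ (N : ℝ) ^ a →
            (N : ℝ) / 2 ^ (C * Real.sqrt (Real.logb 2 N)) ≤ Fintype.card ρ) ∧
        (∀ p : List (SInstr ℝ≥0 (Edge T (Shift (m := 2) (d := d))) ρ),
          StackSum p o → (p.length : ℝ) ≤ (N : ℝ) ^ a →
            (N : ℝ) / 2 ^ (C * Real.sqrt (Real.logb 2 N)) ≤ Fintype.card ρ)) ∧
      (∀ (R : Type) [CommSemiring R],
        ∃ (ρ : Type) (_ : Fintype ρ) (_ : DecidableEq ρ) (o : ρ)
          (p : List (Instr R (Edge T (Shift (m := 2) (d := d))) ρ)),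
          (Fintype.card ρ : ℝ) ≤ (N : ℝ) / 2 ^ (Real.sqrt (Real.logb 2 N) / 2) ∧
          p.length ≤ 7 * N ∧ ∀ w : Edge T (Shift (m := 2) (d := d)) → R,
            exec w p o = pathSum w) := by
  obtain ⟨a₁, ha₁⟩ : ∃ a₁, a₁ = max a 1 := ⟨_, rfl⟩
  have h1a : 1 ≤ a₁ := by rw [ha₁]; exact le_max_right _ _
  obtain ⟨a₂, ha₂⟩ : ∃ a₂, a₂ = 3 * a₁ + 7 := ⟨_, rfl⟩
  have h1a2 : 1 ≤ a₂ := by rw [ha₂]; linarith
  obtain ⟨C₂, hC₂⟩ : ∃ C₂, C₂ = 11 + 36 * a₂ + Real.logb 2 (24 * a₂) := ⟨_, rfl⟩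
  obtain ⟨E, hE⟩ : ∃ E, E = 2 * Real.logb 2 (a₁ + 3) + 4 := ⟨_, rfl⟩
  have hC₂0 : 0 ≤ C₂ := by
    have : 0 ≤ Real.logb 2 (24 * a₂) := Real.logb_nonneg (by norm_num) (by linarith)
    rw [hC₂]
    linarith
  have hE0 : 0 ≤ E := by
    have : 0 ≤ Real.logb 2 (a₁ + 3) := Real.logb_nonneg (by norm_num) (by linarith)
    rw [hE]
    linarith
  refine ⟨C₂ + E, ?_⟩
  filter_upwards [eventually_ge_atTop 100] with d hd
  intro T N hT hN
  obtain ⟨n, hn⟩ : ∃ n, n = 2 ^ ⌈Real.sqrt d⌉₊ := ⟨_, rfl⟩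
  rw [← hn] at hT
  have hn1 : 1 ≤ n := by
    rw [hn]
    exact Nat.one_le_two_pow
  rw [hcard] at hN
  obtain ⟨s1, s2⟩ := regs_ge h1a2 hd hn (N := N) (by rw [hN, hT])
  rw [← hC₂] at s1
  have hN2 : 2 ≤ N := by
    rw [hN]
    calc 2 = 2 ^ 1 := by norm_num
      _ ≤ 2 ^ d := Nat.pow_le_pow_right (by norm_num) (by omega)
      _ ≤ (T + 1) * 2 ^ d := Nat.le_mul_of_pos_left _ (by omega)
  have hN2' : (2 : ℝ) ≤ N := by exact_mod_cast hN2
  have hN0 : (0 : ℝ) < N := by linarith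
  have ha : (N : ℝ) ^ a ≤ (N : ℝ) ^ a₁ := by
    rw [ha₁]
    exact Real.rpow_le_rpow_of_exponent_le (by linarith) (le_max_left _ _)
  obtain ⟨s, hs⟩ : ∃ s, s = Real.sqrt (Real.logb 2 N) := ⟨_, rfl⟩
  have hs0 : 0 ≤ s := by rw [hs]; exact Real.sqrt_nonneg _
  rw [← hs] at s1 ⊢
  have hmain : ∀ (ρ : Type) [Fintype ρ] [DecidableEq ρ] (o : ρ) (L : ℕ),
      (L : ℝ) ≤ (N : ℝ) ^ a →
      ((∃ p : List (SInstr (Tropical (WithTop ℝ)) (Edge T (Shift (m := 2) (d := d))) ρ),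
        StackMin p o ∧ p.length = L) ∨
      ∃ p : List (SInstr ℝ≥0 (Edge T (Shift (m := 2) (d := d))) ρ),
        StackSum p o ∧ p.length = L) →
      (N : ℝ) / 2 ^ ((C₂ + E) * s) ≤ Fintype.card ρ := by
    intro ρ _ _ o L hL h
    have hK1 : 1 ≤ Fintype.card ρ := Fintype.card_pos_iff.2 ⟨o⟩
    rcases le_total (Fintype.card ρ : ℝ) N with hKN | hKN
    · obtain ⟨t1, t2⟩ := transfer_poly h1a N hN2' _ L hK1 hKN (hL.trans ha)
      rw [← hs, ← hE] at t1
      obtain ⟨L', h1, h2, h3⟩ := lawBoth hn1 (by norm_num) (by omega) hT.ge o L h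
      have h5 : (L' : ℝ) ≤ (N : ℝ) ^ a₂ := by
        have h6 : (L' : ℝ) ≤ (((48 * Fintype.card ρ + 16) * L ^ 3 : ℕ) : ℝ) := by
          exact_mod_cast h2
        rw [ha₂]
        exact h6.trans t2
      have h4 := s1 _ _ h1 (Nat.mul_pos hK1 (by positivity)) h5 h3
      have h7 : (N : ℝ) / 2 ^ (C₂ * s) ≤ Fintype.card ρ * 2 ^ (E * s) := by
        refine h4.trans ?_
        push_cast at t1 ⊢
        gcongr
      rw [div_le_iff₀ (by positivity)] at h7 ⊢
      calc (N : ℝ) ≤ Fintype.card ρ * 2 ^ (E * s) * 2 ^ (C₂ * s) := h7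
        _ = Fintype.card ρ * 2 ^ ((C₂ + E) * s) := by
          rw [mul_assoc, ← Real.rpow_add (by norm_num)]
          congr 2
          ring
    · refine le_trans ?_ hKN
      exact div_le_self hN0.le (Real.one_le_rpow (by norm_num) (by positivity))
  refine ⟨?_, ?_⟩
  · intro ρ _ _ o
    exact ⟨fun p h hL => hmain ρ o _ hL (Or.inl ⟨p, h, rfl⟩),
      fun p h hL => hmain ρ o _ hL (Or.inr ⟨p, h, rfl⟩)⟩
  · intro R _
    obtain ⟨p, h1, h2⟩ := hup R T 2 d (by omega)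
    refine ⟨Option (Bool × Word 2 d), inferInstance, inferInstance, none, p, ?_, ?_, h2⟩
    · rw [hreg]
      push_cast
      rw [hs]
      exact s2
    · rw [hN]
      exact h1.trans (hlen T d)

end Pool.Agent.TH706.SK
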