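import Pool.Agent.TH706.SK.Base
import Pool.Agent.TH679.PD.PebAsym

set_option autoImplicit false

/-!
# Derivations in acyclic graphs: registers and a stack

The problem of `Pool.Agent.TH679.PD` (cheapest derivations in an acyclic AND/OR graph) for
straight-line programs with registers and a stack.
-/

namespace Pool.Agent.TH706.SK

open Finset
open Pool.Agent.H564R3.PW (Instr exec runs)
open Pool.Agent.TH679.PD
open Pool.Agent.W994.DE (Dag pyramid pyrTop pyramid_pebbles pyramid_deg_le)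
open scoped NNReal

/-! ### Two registers and a stack -/

section Two

variable {R X : Type} [CommSemiring R]

/-- The program `p` computes `f` in the register `true`; at the end the stack is as at the
beginning. -/
def Ev (p : List (SInstr R X Bool)) (f : (X → R) → R) : Prop :=
  ∀ w v σ, (sruns w p (v, σ)).1 true = f w ∧ (sruns w p (v, σ)).2 = σ

theorem ev_load (x : X) : Ev (R := R) [.op (.load true x)] (fun w => w x) := by
  intro w v σ
  refine ⟨?_, rfl⟩
  show Function.update v true (w x) true = w x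
  exact Function.update_self _ _ _

theorem ev_const (c : R) : Ev (X := X) [.op (.const true c)] (fun _ => c) := by
  intro w v σ
  refine ⟨?_, rfl⟩
  show Function.update v true c true = c
  exact Function.update_self _ _ _

theorem ev_bin {p q : List (SInstr R X Bool)} {f g : (X → R) → R} (hp : Ev p f) (hq : Ev q g)
    (I : Instr R X Bool) (h : R → R → R)
    (hI : ∀ w v, I.run w v true = h (v false) (v true)) :
    Ev (p ++ .push true :: (q ++ [.pop false, .op I])) (fun w => h (f w) (g w)) := by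
  intro w v σ
  rw [sruns_append]
  obtain ⟨h1, h2⟩ := hp w v σ
  obtain ⟨a, ha⟩ : ∃ a, a = sruns w p (v, σ) := ⟨_, rfl⟩
  rw [← ha] at h1 h2 ⊢
  obtain ⟨v1, σ1⟩ := a
  simp only at h1 h2
  subst h2
  rw [sruns_cons]
  show (sruns w (q ++ [.pop false, .op I]) (v1, v1 true :: σ1)).1 true = _ ∧
    (sruns w (q ++ [.pop false, .op I]) (v1, v1 true :: σ1)).2 = σ1
  rw [sruns_append]
  obtain ⟨h3, h4⟩ := hq w v1 (v1 true :: σ1)
  obtain ⟨b, hb⟩ : ∃ b, b = sruns w q (v1, v1 true :: σ1) := ⟨_, rfl⟩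
  rw [← hb] at h3 h4 ⊢
  obtain ⟨v2, σ2⟩ := b
  simp only at h3 h4
  subst h4
  rw [sruns_cons, sruns_cons]
  show I.run w (Function.update v2 false (v1 true)) true = _ ∧ σ1 = σ1
  refine ⟨?_, rfl⟩
  rw [hI, Function.update_self, Function.update_of_ne (by decide), h1, h3]

theorem ev_add {p q : List (SInstr R X Bool)} {f g : (X → R) → R} (hp : Ev p f) (hq : Ev q g) :
    ∃ r : List (SInstr R X Bool), r.length = p.length + q.length + 3 ∧
      Ev r (fun w => f w + g w) := by
  refine ⟨p ++ .push true :: (q ++ [.pop false, .op (.add true false true)]), ?_,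
    ev_bin hp hq (.add true false true) (fun a b => a + b) fun w v => ?_⟩
  swap
  · show Function.update v true (v false + v true) true = _
    exact Function.update_self _ _ _
  simp only [List.length_append, List.length_cons, List.length_nil]
  omega

theorem ev_mul {p q : List (SInstr R X Bool)} {f g : (X → R) → R} (hp : Ev p f) (hq : Ev q g) :
    ∃ r : List (SInstr R X Bool), r.length = p.length + q.length + 3 ∧
      Ev r (fun w => f w * g w) := by
  refine ⟨p ++ .push true :: (q ++ [.pop false, .op (.mul true false true)]), ?_,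
    ev_bin hp hq (.mul true false true) (fun a b => a * b) fun w v => ?_⟩
  swap
  · show Function.update v true (v false * v true) true = _
    exact Function.update_self _ _ _
  simp only [List.length_append, List.length_cons, List.length_nil]
  omega

theorem ev_sum {ι : Type} (s : Finset ι) (f : ι → (X → R) → R) (M : ℕ)
    (h : ∀ i, ∃ p : List (SInstr R X Bool), p.length ≤ M ∧ Ev p (f i)) :
    ∃ p : List (SInstr R X Bool), p.length ≤ s.card * (M + 3) + 1 ∧
      Ev p (fun w => ∑ i ∈ s, f i w) := by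
  classical
  induction s using Finset.induction_on with
  | empty =>
    refine ⟨_, ?_, by simpa using ev_const (X := X) (0 : R)⟩
    simp
  | insert i s hi ih =>
    obtain ⟨p, hp, hp'⟩ := h i
    obtain ⟨q, hq, hq'⟩ := ih
    obtain ⟨r, hr, hr'⟩ := ev_add hp' hq'
    refine ⟨r, ?_, ?_⟩
    · rw [hr, card_insert_of_notMem hi]
      nlinarith
    · have : (fun w => ∑ i ∈ insert i s, f i w) = fun w => f i w + ∑ i ∈ s, f i w := by
        funext w
        exact sum_insert hi
      rw [this]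
      exact hr'

theorem ev_prod {ι : Type} (s : Finset ι) (f : ι → (X → R) → R) (M : ℕ)
    (h : ∀ i, ∃ p : List (SInstr R X Bool), p.length ≤ M ∧ Ev p (f i)) :
    ∃ p : List (SInstr R X Bool), p.length ≤ s.card * (M + 3) + 1 ∧
      Ev p (fun w => ∏ i ∈ s, f i w) := by
  classical
  induction s using Finset.induction_on with
  | empty =>
    refine ⟨_, ?_, by simpa using ev_const (X := X) (1 : R)⟩
    simp
  | insert i s hi ih =>
    obtain ⟨p, hp, hp'⟩ := h i
    obtain ⟨q, hq, hq'⟩ := ih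
    obtain ⟨r, hr, hr'⟩ := ev_mul hp' hq'
    refine ⟨r, ?_, ?_⟩
    · rw [hr, card_insert_of_notMem hi]
      nlinarith
    · have : (fun w => ∏ i ∈ insert i s, f i w) = fun w => f i w * ∏ i ∈ s, f i w := by
        funext w
        exact prod_insert hi
      rw [this]
      exact hr'

variable {G : Dag} {k : ℕ}

/-- Two registers and a stack are enough for the evaluation. -/
theorem stack_deriv {D : ℕ} (hk : 1 ≤ k) (hD : ∀ i, G.deg i ≤ D) (h : ℕ) :
    ∀ (i : G.V) (u : Fin k), G.rank i ≤ h →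
      ∃ p : List (SInstr R (Rule G k) Bool),
        p.length ≤ (k ^ D * (4 * D + 8) + 1) ^ (h + 1) ∧ Ev p (fun w => deriv w i u) := by
  induction h with
  | zero =>
    intro i u hi
    have hdeg : G.deg i = 0 := by
      by_contra hne
      have := G.rank_lt i ⟨0, Nat.pos_of_ne_zero hne⟩
      omega
    have h1 : ∀ φ : Fin (G.deg i) → Fin k, ∃ p : List (SInstr R (Rule G k) Bool),
        p.length ≤ 5 ∧ Ev p (fun w => w ⟨i, u, φ⟩ * ∏ a, deriv w (G.kid i a) (φ a)) := by
      intro φ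
      obtain ⟨r, hr, hr'⟩ := ev_mul (ev_load (R := R) (⟨i, u, φ⟩ : Rule G k))
        (ev_const (X := Rule G k) (1 : R))
      refine ⟨r, by simpa using hr.le, ?_⟩
      have : (fun w : Rule G k → R => w ⟨i, u, φ⟩ * ∏ a, deriv w (G.kid i a) (φ a)) =
          fun w => w ⟨i, u, φ⟩ * 1 := by
        funext w
        congr 1
        refine Finset.prod_eq_one fun a _ => ?_
        exact absurd a.2 (by omega)
      rw [this]
      exact hr'
    obtain ⟨p, hp, hp'⟩ := ev_sum (univ : Finset (Fin (G.deg i) → Fin k)) _ 5 h1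
    refine ⟨p, ?_, ?_⟩
    · rw [card_univ, Fintype.card_pi_const, hdeg, pow_zero] at hp
      have hkD : 1 ≤ k ^ D := Nat.one_le_pow _ _ (by omega)
      rw [zero_add, pow_one]
      nlinarith
    · have : (fun w : Rule G k → R => deriv w i u) =
          fun w => ∑ φ : Fin (G.deg i) → Fin k, w ⟨i, u, φ⟩ * ∏ a, deriv w (G.kid i a) (φ a) := by
        funext w
        exact deriv_eq w i u
      rw [this]
      exact hp'
  | succ h ih =>
    intro i u hi
    obtain ⟨c, hc⟩ : ∃ c, c = k ^ D * (4 * D + 8) + 1 := ⟨_, rfl⟩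
    rw [← hc] at ih ⊢
    obtain ⟨T, hT⟩ : ∃ T, T = c ^ (h + 1) := ⟨_, rfl⟩
    have hT1 : 1 ≤ T := by rw [hT]; exact Nat.one_le_pow _ _ (by omega)
    rw [← hT] at ih
    have h1 : ∀ φ : Fin (G.deg i) → Fin k, ∃ p : List (SInstr R (Rule G k) Bool),
        p.length ≤ D * (T + 3) + 5 ∧
          Ev p (fun w => w ⟨i, u, φ⟩ * ∏ a, deriv w (G.kid i a) (φ a)) := by
      intro φ
      obtain ⟨q, hq, hq'⟩ := ev_prod (R := R) (univ : Finset (Fin (G.deg i)))
        (fun a w => deriv w (G.kid i a) (φ a)) T fun a => ih _ _ (by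
          have := G.rank_lt i a
          omega)
      obtain ⟨r, hr, hr'⟩ := ev_mul (ev_load (R := R) (⟨i, u, φ⟩ : Rule G k)) hq'
      refine ⟨r, ?_, hr'⟩
      rw [card_univ, Fintype.card_fin] at hq
      have h2 : G.deg i * (T + 3) ≤ D * (T + 3) := Nat.mul_le_mul_right _ (hD i)
      rw [hr]
      simp only [List.length_cons, List.length_nil]
      omega
    obtain ⟨p, hp, hp'⟩ := ev_sum (univ : Finset (Fin (G.deg i) → Fin k)) _ _ h1
    refine ⟨p, ?_, ?_⟩
    · rw [card_univ, Fintype.card_pi_const, Fintype.card_fin] at hp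
      have hkD : k ^ G.deg i ≤ k ^ D := Nat.pow_le_pow_right (by omega) (hD i)
      have h3 : k ^ G.deg i * (D * (T + 3) + 5 + 3) ≤ k ^ D * (D * (T + 3) + 5 + 3) :=
        Nat.mul_le_mul_right _ hkD
      have h4 : D * (T + 3) + 5 + 3 ≤ (4 * D + 8) * T := by nlinarith
      have h5 : k ^ D * (D * (T + 3) + 5 + 3) ≤ k ^ D * ((4 * D + 8) * T) :=
        Nat.mul_le_mul_left _ h4
      calc p.length ≤ k ^ G.deg i * (D * (T + 3) + 5 + 3) + 1 := hp
        _ ≤ k ^ D * ((4 * D + 8) * T) + 1 := by omega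
        _ ≤ k ^ D * ((4 * D + 8) * T) + T := by omega
        _ = T * c := by rw [hc]; ring
        _ = c ^ (h + 1 + 1) := by rw [hT, ← pow_succ]
    · have : (fun w : Rule G k → R => deriv w i u) =
          fun w => ∑ φ : Fin (G.deg i) → Fin k, w ⟨i, u, φ⟩ * ∏ a, deriv w (G.kid i a) (φ a) := by
        funext w
        exact deriv_eq w i u
      rw [this]
      exact hp'

end Two

/-! ### Programs without a stack -/

theorem sexec_op {R X ρ : Type} [CommSemiring R] [DecidableEq ρ] (w : X → R)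
    (p : List (Instr R X ρ)) : sexec w (p.map .op) = exec w p := by
  have key : ∀ (p : List (Instr R X ρ)) (v : ρ → R) (σ : List R),
      sruns w (p.map .op) (v, σ) = (runs w p v, σ) := by
    intro p
    induction p with
    | nil => intro v σ; rfl
    | cons I p ih =>
      intro v σ
      rw [List.map_cons, sruns_cons]
      exact ih _ _
  unfold sexec exec
  rw [key]

variable {G : Dag} {k : ℕ}

/-- The program `p` with a stack, whose constants are real numbers or infinity, writes into register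
`o` the minimum weight of a derivation tree of `(r, u)`, for all weights in the natural numbers. -/
def StackSolvesMin {ρ : Type} [DecidableEq ρ] (r : G.V) (u : Fin k)
    (p : List (SInstr (Tropical (WithTop ℝ)) (Rule G k) ρ)) (o : ρ) : Prop :=
  ∀ w : Rule G k → ℕ,
    sexec (fun x => Tropical.trop (((w x : ℕ) : ℝ) : WithTop ℝ)) p o =
      deriv (fun x => Tropical.trop (((w x : ℕ) : ℝ) : WithTop ℝ)) r u

/-- The program `p` with a stack, over the nonnegative real numbers, computes the sum over all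
derivation trees of `(r, u)` of the products of the weights. -/
def StackSolvesSum {ρ : Type} [DecidableEq ρ] (r : G.V) (u : Fin k)
    (p : List (SInstr ℝ≥0 (Rule G k) ρ)) (o : ρ) : Prop :=
  ∀ w : Rule G k → ℝ≥0, sexec w p o = deriv w r u

theorem len_arith (L n L' : ℕ) (hn : n = Nat.log 2 L) (hL' : L' ≤ 49 * 2 * L * 7 ^ n) :
    Nat.clog 2 (L' + 1) ≤ 4 * (n + 2) := by
  refine Nat.clog_le_of_le_pow ?_
  have h1 : L < 2 ^ (n + 1) := by
    rw [hn]
    exact Nat.lt_pow_succ_log_self (by norm_num) L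
  have h2 : (7 : ℕ) ^ n ≤ 8 ^ n := Nat.pow_le_pow_left (by norm_num) n
  have h3 : (8 : ℕ) ^ n = 2 ^ (3 * n) := by rw [pow_mul]; norm_num
  have h4 : 49 * 2 * L * 7 ^ n ≤ 49 * 2 * 2 ^ (n + 1) * 2 ^ (3 * n) := by
    rw [← h3]
    exact Nat.mul_le_mul (Nat.mul_le_mul_left _ h1.le) h2
  have h5 : 1 ≤ 2 ^ (3 * n) := Nat.one_le_two_pow
  have h6 : 1 ≤ 2 ^ (n + 1) := Nat.one_le_two_pow
  have h7 : 2 ^ (4 * (n + 2)) = 128 * 2 ^ (n + 1) * 2 ^ (3 * n) := by
    rw [show 4 * (n + 2) = 7 + (n + 1) + 3 * n by ring, pow_add, pow_add]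
    norm_num
  rw [h7]
  have h8 : 1 ≤ 2 ^ (n + 1) * 2 ^ (3 * n) := Nat.mul_le_mul h6 h5
  nlinarith

theorem peb_arith' {K n K' a b : ℕ} (hK : 1 ≤ K)
    (hK' : K' = K * ((2 * 2 + 1) * (n + 1) + 5)) (ha : a ≤ 4 * (n + 2)) (hb : b ≤ 4 * (n + 2)) :
    4 * (K' + a) * b + 1 ≤ 144 * K * (n + 2) ^ 2 + 1 := by
  have h1 : K' + a ≤ 9 * K * (n + 2) := by
    rw [hK']
    nlinarith
  have h2 : 4 * (K' + a) * b ≤ 4 * (9 * K * (n + 2)) * (4 * (n + 2)) :=
    Nat.mul_le_mul (Nat.mul_le_mul_left _ h1) hb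
  nlinarith

/-- The number of pebbles, from a program without a stack that computes the same as a program with
a stack with `K` registers and `L` steps. -/
theorem stack_peb {R ρ : Type} [Zero R] [Fintype ρ] [DecidableEq ρ] {r : G.V} {u : Fin k}
    {K n L : ℕ} (hK : 1 ≤ K) (hn : n = Nat.log 2 L)
    (hρ : Fintype.card ρ = K * ((2 * 2 + 1) * (n + 1) + 5)) {q : List (Instr R (Rule G k) ρ)}
    {o : ρ} (hT : Good (Pool.Agent.H564R3.PW.syms q o) r u) (hk : 2 ≤ k)
    (hq : q.length ≤ 49 * 2 * L * 7 ^ n) :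
    G.Pebblable (144 * K * (n + 2) ^ 2 + 1) r := by
  refine pebblable_mono ?_ (peb_lower_log hT hk)
  refine peb_arith' hK hρ (len_arith L n _ hn hq) ?_
  exact (Nat.clog_mono_right 2 (Nat.le_succ _)).trans (len_arith L n _ hn hq)

theorem card_pos_of {ρ : Type} [Fintype ρ] (o : ρ) : 1 ≤ Fintype.card ρ :=
  Fintype.card_pos_iff.2 ⟨o⟩

theorem stack_min {ρ : Type} [Fintype ρ] [DecidableEq ρ] {r : G.V} {u : Fin k} (hk : 2 ≤ k)
    {p : List (SInstr (Tropical (WithTop ℝ)) (Rule G k) ρ)} {o : ρ}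
    (h : StackSolvesMin r u p o) :
    G.Pebblable (144 * Fintype.card ρ * (Nat.log 2 p.length + 2) ^ 2 + 1) r := by
  obtain ⟨z, q, h1, h2⟩ := simulate_linear p 2 le_rfl
  refine stack_peb (ρ := ρ × Fin ((2 * 2 + 1) * (Nat.log 2 p.length + 1) + 5)) (q := q)
    (o := (o, z)) (u := u) (card_pos_of o) rfl ?_ (good_min ?_) hk h1
  · rw [Fintype.card_prod, Fintype.card_fin]
  · intro w
    rw [h2]
    exact h w

theorem stack_sum {ρ : Type} [Fintype ρ] [DecidableEq ρ] {r : G.V} {u : Fin k} (hk : 2 ≤ k)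
    {p : List (SInstr ℝ≥0 (Rule G k) ρ)} {o : ρ} (h : StackSolvesSum r u p o) :
    G.Pebblable (144 * Fintype.card ρ * (Nat.log 2 p.length + 2) ^ 2 + 1) r := by
  obtain ⟨z, q, h1, h2⟩ := simulate_linear p 2 le_rfl
  refine stack_peb (ρ := ρ × Fin ((2 * 2 + 1) * (Nat.log 2 p.length + 1) + 5)) (q := q)
    (o := (o, z)) (u := u) (card_pos_of o) rfl ?_ (good_sum ?_) hk h1
  · rw [Fintype.card_prod, Fintype.card_fin]
  · intro w
    rw [h2]
    exact h w

theorem stack_polylog {l c K L : ℕ} (hl : 2 ≤ l) (hK : K ≤ l ^ c) (hL : L ≤ 2 ^ l ^ c) :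
    144 * K * (Nat.log 2 L + 2) ^ 2 + 1 ≤ l ^ (3 * c + 11) := by
  have h1 : 1 ≤ l ^ c := Nat.one_le_pow _ _ (by omega)
  have h2 : Nat.log 2 L ≤ l ^ c := by
    have := Nat.log_mono_right (b := 2) hL
    rwa [Nat.log_pow (by norm_num)] at this
  have h3 : Nat.log 2 L + 2 ≤ 3 * l ^ c := by omega
  have h4 : 144 * K * (Nat.log 2 L + 2) ^ 2 ≤ 144 * l ^ c * (3 * l ^ c) ^ 2 :=
    Nat.mul_le_mul (Nat.mul_le_mul_left _ hK) (Nat.pow_le_pow_left h3 2)
  have h5 : 2048 ≤ l ^ 11 := by
    calc 2048 = 2 ^ 11 := by norm_num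
      _ ≤ l ^ 11 := Nat.pow_le_pow_left hl 11
  have h6 : l ^ (3 * c + 11) = (l ^ c) ^ 3 * l ^ 11 := by ring
  have h7 : 1 ≤ (l ^ c) ^ 3 := Nat.one_le_pow _ _ h1
  rw [h6]
  calc 144 * K * (Nat.log 2 L + 2) ^ 2 + 1 ≤ 144 * l ^ c * (3 * l ^ c) ^ 2 + 1 := by omega
    _ = 1296 * (l ^ c) ^ 3 + 1 := by ring
    _ ≤ (l ^ c) ^ 3 * 2048 := by omega
    _ ≤ (l ^ c) ^ 3 * l ^ 11 := Nat.mul_le_mul_left _ h5

end Pool.Agent.TH706.SK
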